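import Pool.Agent.N424.FF.Fam
import Pool.Agent.N658.FF.Stm3

/-! # Gapped families of frustration-free Hamiltonians, large boxes only (helper55, project FF2) -/

set_option autoImplicit false

open scoped BigOperators InnerProductSpace Matrix Classical ComplexOrder

noncomputable section

namespace Pool.Agent.N55.FF

open Pool.Agent.TH235.PP Pool.Agent.N658.FF Pool.Agent.N424.FF

theorem fam2 : StmFam2 := by
  intro d R h hR hh Δ A₀ a w₀ hΔ hG Ψ hΨ
  obtain ⟨L1, hG⟩ := hG
  obtain ⟨L2, hΨ⟩ := hΨ
  refine ⟨⟨hR, hh.1, hΔ, max (max L1 L2) w₀, ?_⟩, L2, ?_⟩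
  · intro L _ hL
    have hLw : w₀ ≤ L := le_trans (le_max_right _ _) hL
    have hL' : max L1 L2 ≤ L := le_trans (le_max_left _ _) hL
    obtain ⟨hgap, hdeg⟩ := hG L (le_trans (le_max_left _ _) hL')
    obtain ⟨hn, hk⟩ := hΨ L (le_trans (le_max_right _ _) hL')
    refine ⟨hn, 0, ?_, ?_, ?_⟩
    · rw [Complex.ofReal_zero, zero_smul]
      exact hk
    · intro φ hφ
      rw [Complex.ofReal_zero, zero_smul] at hφ
      have hmem : ∀ ψ : (Site L → Fin d) → ℂ, ham h L *ᵥ ψ = 0 → ψ ∈ offSpace h L L ∅ :=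
        fun ψ hψ u _ => ker_ham hh L ψ hψ u
      have h1 := hdeg L ∅ hLw le_rfl
      have h2 : Module.finrank ℂ (offSpace h L L ∅) ≤ 1 := by
        have : (Module.finrank ℂ (offSpace h L L ∅) : ℝ) ≤ 1 := by
          refine h1.trans (le_of_eq ?_)
          simp
        exact_mod_cast this
      have hne : Ψ L ≠ 0 := by
        intro h0
        rw [h0] at hn
        simp [normSq] at hn
      obtain ⟨v, hv⟩ := (finrank_le_one_iff.1 h2)
      obtain ⟨c1, hc1⟩ := hv ⟨Ψ L, hmem _ hk⟩
      obtain ⟨c2, hc2⟩ := hv ⟨φ, hmem _ hφ⟩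
      have e1 : c1 • (v : (Site L → Fin d) → ℂ) = Ψ L := congrArg Subtype.val hc1
      have e2 : c2 • (v : (Site L → Fin d) → ℂ) = φ := congrArg Subtype.val hc2
      have hc0 : c1 ≠ 0 := by
        intro h0
        apply hne
        rw [← e1, h0, zero_smul]
      refine ⟨c2 / c1, ?_⟩
      rw [← e1, ← e2, smul_smul, div_mul_cancel₀ _ hc0]
    · intro E' φ hφ hE
      by_cases h0 : E' = 0
      · exact Or.inl h0
      · right
        have horth : ∀ ψ : (Site L → Fin d) → ℂ,
            (∀ u ∈ (Finset.univ : Finset (Site L)), term h u *ᵥ ψ = 0) → ip ψ φ = 0 := by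
          intro ψ hψ
          have hz : ham h L *ᵥ ψ = 0 := by
            rw [ham_mulVec]
            exact Finset.sum_eq_zero hψ
          have hH : (ham h L).IsHermitian := by
            unfold ham
            exact (Matrix.posSemidef_sum _ fun u _ => Pool.Agent.N413.FF.term_psd hh u).1
          have h1 : ip ψ (ham h L *ᵥ φ) = 0 := by
            have e1 : ip ψ (ham h L *ᵥ φ) = star ψ ⬝ᵥ (ham h L *ᵥ φ) := rfl
            have e2 : star ψ ᵥ* ham h L = star (ham h L *ᵥ ψ) := by
              rw [Matrix.star_mulVec, hH.eq]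
            rw [e1, Matrix.dotProduct_mulVec, e2, hz, star_zero, zero_dotProduct]
          rw [hE, Pool.Agent.N424.FF.ip_smul_right] at h1
          rcases mul_eq_zero.1 h1 with h2 | h2
          · exact absurd (Complex.ofReal_eq_zero.1 h2) h0
          · exact h2
        have h1 := hgap Finset.univ φ horth
        rw [← re_ip_ham, hE, Pool.Agent.N424.FF.ip_smul_right, Complex.re_ofReal_mul, ip_self_re] at h1
        have := normSq_pos hφ
        rw [zero_add]
        exact le_of_mul_le_mul_right h1 this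
  · intro L _ hL
    obtain ⟨_, hk⟩ := hΨ L hL
    unfold Pool.Agent.Results.MP_953b23_mp.ThermalCriterion.energy
    rw [hk, ip_zero_right, Complex.zero_re]

end Pool.Agent.N55.FF
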